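import Pool.Agent.H360Z.Exp.Main

set_option autoImplicit false

namespace Pool.Agent.Results.MP_e3cf1a_co.ATheta

open Filter Asymptotics

/-- The 3-uniform expansion of a graph: one triple `{u, v, z_uv}` for each edge `uv`, on the
vertex set `V ⊕ E(G)`. -/
def expansion {V : Type} (G : SimpleGraph V) : Set (Set (V ⊕ G.edgeSet)) :=
  {s | ∃ (u v : V) (h : s(u, v) ∈ G.edgeSet), s = {Sum.inl u, Sum.inl v, Sum.inr ⟨s(u, v), h⟩}}

/-- The least size of a set meeting every edge in exactly one vertex. -/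
noncomputable def crosscutNumber {W : Type} (F : Set (Set W)) : ℕ :=
  sInf {k | ∃ X : Set W, (∀ e ∈ F, ∃! x, x ∈ e ∧ x ∈ X) ∧ X.ncard = k}

/-- The largest number of edges of a 3-graph on `n` vertices with no copy of `F`. -/
noncomputable def ex3 (n : ℕ) {W : Type} (F : Set (Set W)) : ℕ :=
  sSup {m | ∃ H : Finset (Finset (Fin n)), (∀ h ∈ H, h.card = 3) ∧
    (¬ ∃ φ : W → Fin n, Function.Injective φ ∧ ∀ e ∈ F, ∃ h ∈ H, φ '' e = (h : Set (Fin n))) ∧
    H.card = m}

theorem bdd (n : ℕ) {W : Type} (F : Set (Set W)) :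
    BddAbove {m | ∃ H : Finset (Finset (Fin n)), (∀ h ∈ H, h.card = 3) ∧
    (¬ ∃ φ : W → Fin n, Function.Injective φ ∧ ∀ e ∈ F, ∃ h ∈ H, φ '' e = (h : Set (Fin n))) ∧
    H.card = m} := by
  refine ⟨Fintype.card (Finset (Fin n)), ?_⟩
  rintro c ⟨H, -, -, rfl⟩
  exact Finset.card_le_univ H

theorem up {V : Type} [Fintype V] (G : SimpleGraph V) (h : crosscutNumber (expansion G) = 3) :
    ∃ C : ℕ, ∀ n, ex3 n (expansion G) ≤ C * n ^ 2 := by
  classical
  have hne : {k | ∃ X : Set (V ⊕ G.edgeSet),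
      (∀ e ∈ expansion G, ∃! x, x ∈ e ∧ x ∈ X) ∧ X.ncard = k}.Nonempty :=
    Nat.nonempty_of_pos_sInf (by unfold crosscutNumber at h; omega)
  obtain ⟨X, hX1, hX2⟩ := Nat.sInf_mem hne
  have hfin : X.Finite := Set.toFinite X
  have hcard : hfin.toFinset.card = 3 := by
    rw [← Set.ncard_eq_toFinset_card X hfin, hX2]; exact h
  obtain ⟨C, hC⟩ := Pool.Agent.H360Z.Exp.upper hfin.toFinset hcard (fun u v huv => by
    obtain ⟨x, hx, hu⟩ := hX1 _ ⟨u, v, huv, rfl⟩
    have h1 := hu (Sum.inl u)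
    have h2 := hu (Sum.inl v)
    have h3 := hu (Sum.inr ⟨s(u, v), huv⟩)
    have hne := huv.ne
    simp only [Set.mem_insert_iff, Set.mem_singleton_iff, true_or, or_true, true_and] at h1 h2 h3 hx
    simp only [Set.Finite.mem_toFinset]
    rcases hx with ⟨rfl | rfl | rfl, hx⟩
    · exact Or.inl ⟨hx, fun k => hne (Sum.inl.inj (h2 k)).symm, fun k => by simpa using h3 k⟩
    · exact Or.inr (Or.inl ⟨fun k => hne (Sum.inl.inj (h1 k)), hx, fun k => by simpa using h3 k⟩)
    · exact Or.inr (Or.inr ⟨fun k => by simpa using h1 k, fun k => by simpa using h2 k, hx⟩))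
  refine ⟨C, fun n => csSup_le' ?_⟩
  rintro m ⟨H, h3, hno, rfl⟩
  refine hC n H h3 ?_
  rintro ⟨f, hf, g, hg, hfg, hH⟩
  refine hno ⟨Sum.elim f g, ?_, ?_⟩
  · rintro (a | a) (b | b) e
    · rw [hf e]
    · exact absurd e.symm (hfg _ _)
    · exact absurd e (hfg _ _)
    · rw [hg e]
  · rintro _ ⟨u, v, huv, rfl⟩
    refine ⟨_, hH u v huv, ?_⟩
    simp [Set.image_insert_eq]

theorem low {V : Type} [Fintype V] (G : SimpleGraph V) (h : crosscutNumber (expansion G) = 3)
    (n : ℕ) : n.choose 2 ≤ ex3 (n + 1) (expansion G) := by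
  classical
  let H : Finset (Finset (Fin (n + 1))) :=
    (Finset.powersetCard 2 (Finset.univ.erase 0)).image (insert 0)
  have hmem : ∀ s ∈ Finset.powersetCard 2 (Finset.univ.erase (0 : Fin (n + 1))), 0 ∉ s := by
    intro s hs h0
    simpa using (Finset.mem_powersetCard.mp hs).1 h0
  have hcard : H.card = n.choose 2 := by
    rw [Finset.card_image_of_injOn, Finset.card_powersetCard, Finset.card_erase_of_mem
      (Finset.mem_univ _)]
    · simp
    · intro s hs t ht e
      rw [← Finset.erase_insert (hmem s hs), ← Finset.erase_insert (hmem t ht), e]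
  refine le_csSup (bdd _ _) ⟨H, ?_, ?_, hcard⟩
  · intro e he
    obtain ⟨s, hs, rfl⟩ := Finset.mem_image.mp he
    rw [Finset.card_insert_of_notMem (hmem s hs), (Finset.mem_powersetCard.mp hs).2]
  · rintro ⟨φ, hφ, hH⟩
    have h1 : crosscutNumber (expansion G) ≤ (φ ⁻¹' {0}).ncard := by
      refine Nat.sInf_le ⟨φ ⁻¹' {0}, fun e he => ?_, rfl⟩
      obtain ⟨k, hk, hek⟩ := hH e he
      obtain ⟨s, hs, rfl⟩ := Finset.mem_image.mp hk
      have : (0 : Fin (n + 1)) ∈ φ '' e := by rw [hek]; simp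
      obtain ⟨x, hx, hx0⟩ := this
      exact ⟨x, ⟨hx, hx0⟩, fun y hy => hφ (hy.2.trans hx0.symm)⟩
    have h2 : (φ ⁻¹' {0}).ncard ≤ 1 :=
      (Set.ncard_le_one (Set.toFinite _)).mpr fun a ha b hb => hφ (ha.trans hb.symm)
    omega

/-- For every finite graph `G` whose expansion has crosscut number three, the Turan number of the
expansion has order of magnitude exactly `n ^ 2`. -/
theorem result : ∀ (V : Type) [Fintype V] (G : SimpleGraph V), crosscutNumber (expansion G) = 3 →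
    (fun n : ℕ => (ex3 n (expansion G) : ℝ)) =Θ[atTop] (fun n : ℕ => (n : ℝ) ^ 2) := by
  intro V _ G h
  obtain ⟨C, hC⟩ := up G h
  refine ⟨IsBigO.of_bound C (Eventually.of_forall fun n => ?_),
    IsBigO.of_bound 8 (eventually_atTop.mpr ⟨4, fun n hn => ?_⟩)⟩
  · rw [Real.norm_of_nonneg (Nat.cast_nonneg _), Real.norm_of_nonneg (by positivity)]
    exact_mod_cast hC n
  · obtain ⟨m, rfl⟩ : ∃ m, n = m + 1 := ⟨n - 1, by omega⟩
    rw [Real.norm_of_nonneg (Nat.cast_nonneg _), Real.norm_of_nonneg (by positivity)]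
    have h1 : ((m.choose 2 : ℕ) : ℝ) ≤ (ex3 (m + 1) (expansion G) : ℝ) := by
      exact_mod_cast low G h m
    rw [Nat.cast_choose_two] at h1
    have h2 : (3 : ℝ) ≤ m := by exact_mod_cast (by omega : 3 ≤ m)
    push_cast
    nlinarith

end Pool.Agent.Results.MP_e3cf1a_co.ATheta
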